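import Pool.Agent.Y217.HK.Inst
import Pool.Agent.H65R4.KU

/-! Project HK (helper217), job HK-9: uniform bound for generic rows. -/

set_option autoImplicit false

namespace Pool.Agent.Y998.HK

open Pool.Agent.Y217.HK MeasureTheory Filter Topology Set

/-- Cantor space -/
abbrev Cn : Type := ℕ → Bool

lemma addRow_addRow (k : ℕ) (g h : Cn) (x : Om) :
    addRow k h (addRow k g x) = addRow k (fun j => xor (g j) (h j)) x := by
  funext i j
  unfold addRow
  by_cases hi : i = k
  · simp only [hi, if_true]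
    cases x k j <;> cases g j <;> cases h j <;> rfl
  · simp only [hi, if_false]

lemma addRow_zero (k : ℕ) (x : Om) : addRow k (fun _ => false) x = x := by
  funext i j
  unfold addRow
  by_cases hi : i = k
  · simp [hi]
  · simp [hi]

lemma continuous_addRow (k : ℕ) : Continuous fun p : Om × Cn => addRow k p.2 p.1 := by
  refine continuous_pi fun i => continuous_pi fun j => ?_
  unfold addRow
  by_cases hi : i = k
  · simp only [hi, if_true]
    have h1 : Continuous fun p : Om × Cn => (p.1 k j, p.2 j) := by fun_prop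
    exact (continuous_of_discreteTopology (f := fun q : Bool × Bool => xor q.1 q.2)).comp h1
  · simp only [hi, if_false]
    fun_prop

/-- `(x, g) ↦ (addRow k g x, g)` -/
def homeo (k : ℕ) : (Om × Cn) ≃ₜ (Om × Cn) where
  toFun p := (addRow k p.2 p.1, p.2)
  invFun p := (addRow k p.2 p.1, p.2)
  left_inv p := by
    refine Prod.ext ?_ rfl
    show addRow k p.2 (addRow k p.2 p.1) = p.1
    rw [addRow_addRow]
    conv_rhs => rw [← addRow_zero k p.1]
    congr 1
    funext j
    simp
  right_inv p := by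
    refine Prod.ext ?_ rfl
    show addRow k p.2 (addRow k p.2 p.1) = p.1
    rw [addRow_addRow]
    conv_rhs => rw [← addRow_zero k p.1]
    congr 1
    funext j
    simp
  continuous_toFun := (continuous_addRow k).prodMk continuous_snd
  continuous_invFun := (continuous_addRow k).prodMk continuous_snd

lemma isOpenMap_addRow (k : ℕ) : IsOpenMap fun p : Om × Cn => addRow k p.2 p.1 :=
  isOpenMap_fst.comp (homeo k).isOpenMap

/-- generic rows keep a residual set -/
lemma generic_row (k : ℕ) {R : Set Om} (hR : R ∈ residual Om) :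
    ∀ᶠ x in residual Om, ∀ᶠ g in residual Cn, addRow k g x ∈ R := by
  have h1 : IsMeagre (Rᶜ) := by
    rw [IsMeagre, compl_compl]; exact hR
  have h2 : IsMeagre ((fun p : Om × Cn => addRow k p.2 p.1) ⁻¹' Rᶜ) :=
    h1.preimage_of_isOpenMap (continuous_addRow k) (isOpenMap_addRow k)
  filter_upwards [Pool.Agent.H65R4.ku_meagre h2] with x hx
  rw [IsMeagre] at hx
  filter_upwards [hx] with g hg
  by_contra hcon
  exact hg hcon

/-- translation of Cantor space -/
def trans (g : Cn) : Cn ≃ₜ Cn where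
  toFun h := fun j => xor (h j) (g j)
  invFun h := fun j => xor (h j) (g j)
  left_inv h := by funext j; simp
  right_inv h := by funext j; simp
  continuous_toFun := by
    refine continuous_pi fun j => ?_
    exact (continuous_of_discreteTopology (f := fun q : Bool => xor q (g j))).comp
      (continuous_apply j)
  continuous_invFun := by
    refine continuous_pi fun j => ?_
    exact (continuous_of_discreteTopology (f := fun q : Bool => xor q (g j))).comp
      (continuous_apply j)

/-- cylinder -/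
def Cyl (s : List Bool) : Set Cn := {h | ∀ j, j < s.length → h j = s.getD j false}

lemma isOpen_cyl (s : List Bool) : IsOpen (Cyl s) := by
  have : Cyl s = PiNat.cylinder (E := fun _ => Bool) (fun j => s.getD j false) s.length := rfl
  rw [this]
  exact PiNat.isOpen_cylinder _ _ _

lemma cyl_nonempty (s : List Bool) : (Cyl s).Nonempty := ⟨fun j => s.getD j false, fun _ _ => rfl⟩

lemma exists_cyl {O : Set Cn} (hO : IsOpen O) (hne : O.Nonempty) : ∃ s, Cyl s ⊆ O := by
  obtain ⟨g, hg⟩ := hne
  obtain ⟨V, ⟨x, n, rfl⟩, hgV, hVO⟩ :=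
    (PiNat.isTopologicalBasis_cylinders (fun _ : ℕ => Bool)).exists_subset_of_mem_open hg hO
  refine ⟨List.ofFn fun i : Fin n => x i, ?_⟩
  intro h hh
  apply hVO
  intro i hi
  have h1 := hh i (by simpa using hi)
  rw [h1]
  simp [List.getD, hi]

lemma measurable_addRow (k : ℕ) : Measurable fun p : Om × Cn => addRow k p.2 p.1 :=
  (continuous_addRow k).measurable

lemma measurableSet_bd (k K M : ℕ) (b : Set ℕ) (ψ : Om → Z) (hψ : Measurable ψ) :
    MeasurableSet {p : Om × Cn | ∀ m, M ≤ m → m ∈ b →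
      (1 + ds (ψ p.1) (ψ (addRow k p.2 p.1)) m) ^ K ≤ L m} := by
  have h0 : {p : Om × Cn | ∀ m, M ≤ m → m ∈ b →
      (1 + ds (ψ p.1) (ψ (addRow k p.2 p.1)) m) ^ K ≤ L m} =
      ⋂ m : ℕ, {p : Om × Cn | M ≤ m → m ∈ b →
        (1 + ds (ψ p.1) (ψ (addRow k p.2 p.1)) m) ^ K ≤ L m} := by
    ext p; simp
  rw [h0]
  refine MeasurableSet.iInter fun m => ?_
  by_cases h : M ≤ m ∧ m ∈ b
  · have h1 : Measurable fun p : Om × Cn => (ψ p.1 m, ψ (addRow k p.2 p.1) m) := by
      refine Measurable.prodMk ?_ ?_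
      · exact (measurable_pi_apply m).comp (hψ.comp measurable_fst)
      · exact (measurable_pi_apply m).comp (hψ.comp (measurable_addRow k))
    have h2 : {p : Om × Cn | M ≤ m → m ∈ b →
        (1 + ds (ψ p.1) (ψ (addRow k p.2 p.1)) m) ^ K ≤ L m} =
        (fun p : Om × Cn => (ψ p.1 m, ψ (addRow k p.2 p.1) m)) ⁻¹'
          {q : Fin (L m + 1) × Fin (L m + 1) |
            (1 + (((q.1 : ℕ) - (q.2 : ℕ)) + ((q.2 : ℕ) - (q.1 : ℕ)))) ^ K ≤ L m} := by
      ext p
      simp only [mem_ofPred_eq, mem_preimage, h.1, h.2, forall_const]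
      rfl
    rw [h2]
    exact h1 (MeasurableSet.of_discrete)
  · have h2 : {p : Om × Cn | M ≤ m → m ∈ b →
        (1 + ds (ψ p.1) (ψ (addRow k p.2 p.1)) m) ^ K ≤ L m} = univ := by
      ext p
      simp only [mem_ofPred_eq, mem_univ, iff_true]
      intro h3 h4
      exact absurd ⟨h3, h4⟩ h
    rw [h2]
    exact MeasurableSet.univ

theorem q (hC : JCatQ) (_hA : JArith) : JQ := by
  intro b ψ hψ D hD hrel k K
  let B : ℕ → Set (Om × Cn) := fun M => {p : Om × Cn | ∀ m, M ≤ m → m ∈ b →
      (1 + ds (ψ p.1) (ψ (addRow k p.2 p.1)) m) ^ (2 * K) ≤ L m}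
  have hB : ∀ M, MeasurableSet (B M) := fun M => measurableSet_bd k (2 * K) M b ψ hψ
  let Ob : ℕ × List Bool → Set Om := fun q => {x | ∀ᶠ h in residual Cn, h ∈ Cyl q.2 →
    (x, h) ∈ B q.1}
  have hOb : ∀ q, MeasurableSet (Ob q) := by
    intro q
    have h1 : MeasurableSet {p : Om × Cn | p.2 ∈ Cyl q.2 → p ∈ B q.1} := by
      have h2 : {p : Om × Cn | p.2 ∈ Cyl q.2 → p ∈ B q.1} =
          (Prod.snd ⁻¹' (Cyl q.2))ᶜ ∪ B q.1 := by
        ext p
        simp only [mem_ofPred_eq, mem_union, mem_compl_iff, mem_preimage]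
        tauto
      rw [h2]
      exact ((isOpen_cyl q.2).measurableSet.preimage measurable_snd).compl.union (hB q.1)
    exact hC Om Cn _ h1
  have hU : ∀ q, ∃ U : Set Om, IsOpen U ∧ Ob q =ᶠ[residual Om] U := by
    intro q
    have h1 : BaireMeasurableSet (Ob q) := (hOb q).baireMeasurableSet
    exact h1.residualEq_isOpen
  choose U hUo hUe using hU
  have hR : ∀ᶠ x in residual Om, ∀ q, (x ∈ Ob q ↔ x ∈ U q) := by
    rw [eventually_countable_forall]
    intro q
    filter_upwards [hUe q] with x hx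
    exact iff_of_eq hx
  have hgen1 := generic_row k hD
  have hgen2 := generic_row k hR
  filter_upwards [hD, hgen1, hR, hgen2] with x hxD hx1 hxR hx2
  -- almost every `g` is in some `B M`
  have h1 : ∀ᶠ g in residual Cn, ∃ M, (x, g) ∈ B M := by
    filter_upwards [hx1] with g hg
    have hT : Tl x (addRow k g x) := by
      refine ⟨k + 1, fun n hn => ?_⟩
      funext j
      unfold addRow
      rw [if_neg (by omega)]
    obtain ⟨N, hN⟩ := hrel x hxD _ hg hT (2 * K)
    exact ⟨N, fun m hm hmb => hN m hm hmb⟩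
  -- some cylinder
  have h2 : ∃ q, x ∈ Ob q := by
    have h3 : ∀ M, ∃ O : Set Cn, IsOpen O ∧ {g | (x, g) ∈ B M} =ᶠ[residual Cn] O := by
      intro M
      have h4 : MeasurableSet {g : Cn | (x, g) ∈ B M} := (hB M).preimage measurable_prodMk_left
      exact h4.baireMeasurableSet.residualEq_isOpen
    choose O hOo hOe using h3
    have h5 : ∃ M, (O M).Nonempty := by
      by_contra hcon
      push Not at hcon
      have h6 : ∀ᶠ g in residual Cn, ∀ M, (g ∈ {g | (x, g) ∈ B M} ↔ g ∈ O M) := by
        rw [eventually_countable_forall]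
        intro M
        filter_upwards [hOe M] with g hg
        exact iff_of_eq hg
      obtain ⟨g, hg1, hg2⟩ := (dense_of_mem_residual (h1.and h6)).nonempty
      obtain ⟨M, hM⟩ := hg1
      have := (hg2 M).1 hM
      rw [hcon M] at this
      exact this
    obtain ⟨M, hM⟩ := h5
    obtain ⟨s, hs⟩ := exists_cyl (hOo M) hM
    refine ⟨(M, s), ?_⟩
    show ∀ᶠ h in residual Cn, h ∈ Cyl s → (x, h) ∈ B M
    filter_upwards [hOe M] with g hg hgs
    have : g ∈ O M := hs hgs
    exact (iff_of_eq hg).2 this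
  obtain ⟨⟨M, s⟩, hxO⟩ := h2
  have hxU : x ∈ U (M, s) := (hxR _).1 hxO
  -- continuity
  have h3 : ∃ N, s.length ≤ N ∧ ∀ g : Cn, (∀ j, j < N → g j = false) → addRow k g x ∈ U (M, s) := by
    have hc : Continuous fun g : Cn => addRow k g x :=
      (continuous_addRow k).comp (continuous_const.prodMk continuous_id)
    have ho : IsOpen ((fun g : Cn => addRow k g x) ⁻¹' U (M, s)) := (hUo _).preimage hc
    have hm : (fun _ => false : Cn) ∈ ((fun g : Cn => addRow k g x) ⁻¹' U (M, s)) := by
      show addRow k (fun _ => false) x ∈ U (M, s)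
      rw [addRow_zero]; exact hxU
    obtain ⟨V, ⟨y, n, rfl⟩, hgV, hVO⟩ :=
      (PiNat.isTopologicalBasis_cylinders (fun _ : ℕ => Bool)).exists_subset_of_mem_open hm ho
    refine ⟨max n s.length, le_max_right _ _, ?_⟩
    intro g hg
    have hg' : g ∈ PiNat.cylinder (E := fun _ => Bool) y n := by
      intro i hi
      rw [hg i (lt_of_lt_of_le hi (le_max_left _ _))]
      exact hgV i hi
    exact hVO hg'
  obtain ⟨N, hNs, hN⟩ := h3
  refine ⟨N, M, ?_⟩
  filter_upwards [hx2] with g hg hgN m hm hmb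
  have hx'U := hN g hgN
  have hx'O : addRow k g x ∈ Ob (M, s) := (hg _).2 hx'U
  have e1 : ∀ᶠ h in residual Cn, h ∈ Cyl s → (x, h) ∈ B M := hxO
  have e2 : ∀ᶠ h in residual Cn, h ∈ Cyl s → (addRow k g x, h) ∈ B M := hx'O
  have e3 : ∀ᶠ h in residual Cn, (trans g h) ∈ Cyl s → (addRow k g x, trans g h) ∈ B M := by
    have h4 : IsMeagre ({h | h ∈ Cyl s → (addRow k g x, h) ∈ B M}ᶜ : Set Cn) := by
      rw [IsMeagre, compl_compl]; exact e2
    have h5 := h4.preimage_of_isOpenMap (trans g).continuous (trans g).isOpenMap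
    rw [IsMeagre] at h5
    filter_upwards [h5] with h hh hc
    by_contra hcon
    apply hh
    intro h6
    exact hcon (h6 hc)
  have hdense : Dense {h | (h ∈ Cyl s → (x, h) ∈ B M) ∧
      ((trans g h) ∈ Cyl s → (addRow k g x, trans g h) ∈ B M)} :=
    dense_of_mem_residual (e1.and e3)
  obtain ⟨h, hhs, hh1, hh2⟩ := hdense.inter_open_nonempty _ (isOpen_cyl s) (cyl_nonempty s)
  have hts : trans g h ∈ Cyl s := by
    intro j hj
    show xor (h j) (g j) = _
    rw [hgN j (by omega), Bool.xor_false]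
    exact hhs j hj
  have f1 := hh1 hhs m hm hmb
  have f2 := hh2 hts m hm hmb
  have hcomp : addRow k (trans g h) (addRow k g x) = addRow k h x := by
    rw [addRow_addRow]
    congr 1
    funext j
    show xor (g j) (xor (h j) (g j)) = h j
    cases g j <;> cases h j <;> rfl
  simp only at f1 f2
  rw [hcomp] at f2
  set w := ψ (addRow k h x) with hw
  set x' := addRow k g x with hx'
  have htri : ds (ψ x) (ψ x') m ≤ ds (ψ x) w m + ds (ψ x') w m := by
    simp only [ds]; omega
  set d := ds (ψ x) (ψ x') m with hd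
  set d1 := ds (ψ x) w m with hd1
  set d2 := ds (ψ x') w m with hd2
  have h1 : 1 + d ≤ (1 + d1) * (1 + d2) := by
    have h2 : (1 + d1) * (1 + d2) = 1 + (d1 + d2) + d1 * d2 := by ring
    rw [h2]; omega
  have h2 : ((1 + d) ^ K) ^ 2 ≤ (L m) ^ 2 := by
    calc ((1 + d) ^ K) ^ 2 = (1 + d) ^ (2 * K) := by rw [← pow_mul, mul_comm]
      _ ≤ ((1 + d1) * (1 + d2)) ^ (2 * K) := Nat.pow_le_pow_left h1 _
      _ = (1 + d1) ^ (2 * K) * (1 + d2) ^ (2 * K) := by rw [mul_pow]
      _ ≤ L m * L m := Nat.mul_le_mul f1 f2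
      _ = (L m) ^ 2 := by ring
  exact (Nat.pow_le_pow_iff_left (by norm_num : (2:ℕ) ≠ 0)).1 h2

end Pool.Agent.Y998.HK
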