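import Pool.Agent.Y217.HK.Inst

/-! Project HK (helper217), job HK-5: rigidity. -/

set_option autoImplicit false

namespace Pool.Agent.Y998.HK

open Pool.Agent.Y217.HK Filter Topology Set

/-- distance of natural numbers -/
def nd (x y : ℕ) : ℕ := (x - y) + (y - x)

lemma nd_tri (x y z : ℕ) : nd x z ≤ nd x y + nd y z := by unfold nd; omega

lemma nd_comm (x y : ℕ) : nd x y = nd y x := by unfold nd; omega

lemma ds_eq (x y : Z) (m : ℕ) : ds x y m = nd (x m : ℕ) (y m : ℕ) := rfl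

lemma chain (f : ℕ → ℕ) (n D : ℕ) (h : ∀ t, t < n → nd (f t) (f (t + 1)) ≤ D) :
    ∀ r s, s + r ≤ n → nd (f s) (f (s + r)) ≤ r * D := by
  intro r
  induction r with
  | zero => intro s _; simp [nd]
  | succ r ih =>
    intro s hs
    have h1 := ih s (by omega)
    have h2 := h (s + r) (by omega)
    have h3 := nd_tri (f s) (f (s + r)) (f (s + r + 1))
    have h4 : s + (r + 1) = s + r + 1 := by omega
    rw [h4]
    have h5 : (r + 1) * D = r * D + D := by ring
    omega

lemma chain' (f : ℕ → ℕ) (n D : ℕ) (h : ∀ t, t < n → nd (f t) (f (t + 1)) ≤ D) (s t : ℕ)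
    (hs : s ≤ n) (ht : t ≤ n) : nd (f s) (f t) ≤ n * D := by
  rcases le_total s t with hst | hst
  · have h1 := chain f n D h (t - s) s (by omega)
    have h2 : s + (t - s) = t := by omega
    rw [h2] at h1
    exact h1.trans (Nat.mul_le_mul_right D (by omega))
  · have h1 := chain f n D h (s - t) t (by omega)
    have h2 : t + (s - t) = s := by omega
    rw [h2] at h1
    rw [nd_comm]
    exact h1.trans (Nat.mul_le_mul_right D (by omega))

/-- pigeonhole -/
lemma pigeon (hA : JArith) (ψ : Z → Z) (z : Z) (n' : ℕ) :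
    ∃ i j : Fin (L n' + 1), (∀ m, m < n' →
      ψ (Function.update z n' i) m = ψ (Function.update z n' j) m) ∧
      L n' < (1 + nd (i : ℕ) (j : ℕ)) ^ 2 := by
  obtain ⟨hP1, hL1, hPprod, hLs, hPs, h2L, hLL⟩ := hA
  set s := (2 * P n') ^ (n' + 1) with hs
  have hsL : L n' = s ^ 2 := hLs n'
  have hPle : P n' ≤ s := hPs n'
  have hpt : ∀ t : Fin (P n' + 1), (t : ℕ) * s < L n' + 1 := by
    intro t
    have h1 : (t : ℕ) ≤ P n' := Nat.lt_succ_iff.1 t.2
    have h2 : (t : ℕ) * s ≤ s * s := Nat.mul_le_mul_right s (h1.trans hPle)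
    rw [hsL, pow_two]
    omega
  let g : Fin (P n' + 1) → (∀ m : Fin n', Fin (L m + 1)) := fun t m =>
    ψ (Function.update z n' ⟨(t : ℕ) * s, hpt t⟩) m
  have hcard : Fintype.card (∀ m : Fin n', Fin (L m + 1)) < Fintype.card (Fin (P n' + 1)) := by
    rw [Fintype.card_pi, Fintype.card_fin]
    simp only [Fintype.card_fin]
    rw [hPprod n', Finset.prod_range (fun m => L m + 1)]
    omega
  obtain ⟨t, t', hne, hg⟩ := Fintype.exists_ne_map_eq_of_card_lt g hcard
  refine ⟨⟨(t : ℕ) * s, hpt t⟩, ⟨(t' : ℕ) * s, hpt t'⟩, ?_, ?_⟩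
  · intro m hm
    exact congrFun hg ⟨m, hm⟩
  · have hs1 : s ≤ nd ((t : ℕ) * s) ((t' : ℕ) * s) := by
      have hne' : (t : ℕ) ≠ (t' : ℕ) := fun h => hne (Fin.ext h)
      rcases Nat.lt_or_gt_of_ne hne' with h | h
      · have h1 : ((t : ℕ) + 1) * s ≤ (t' : ℕ) * s := Nat.mul_le_mul_right s h
        have h2 : ((t : ℕ) + 1) * s = (t : ℕ) * s + s := by ring
        unfold nd
        omega
      · have h1 : ((t' : ℕ) + 1) * s ≤ (t : ℕ) * s := Nat.mul_le_mul_right s h
        have h2 : ((t' : ℕ) + 1) * s = (t' : ℕ) * s + s := by ring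
        unfold nd
        omega
    show L n' < (1 + nd ((t : ℕ) * s) ((t' : ℕ) * s)) ^ 2
    rw [hsL]
    exact Nat.pow_lt_pow_left (by omega) (by norm_num)

theorem rig (hA : JArith) (hR : JRel) (hF : JFus) (hW : JWin) (hJ : JAdj) : JRig := by
  intro a b ψ hψ D hD hiff
  by_contra hinf0
  have hinf : (a \ b).Infinite := hinf0
  have hArith := hA
  obtain ⟨hP1, hL1, hPprod, hLs, hPs, h2L, hLL⟩ := hA
  obtain ⟨D', z, l, M, hD', hfus⟩ := hF b ψ hψ D hD
    (fun y hy y' hy' h => (hiff y hy y' hy').1 (hR.2.2.2 a y y' h))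
  have hfus' := hfus
  obtain ⟨hMmono, hl, hM, hF1, hF2, hF3⟩ := hfus
  have hex : ∀ N : ℕ, ∃ j, j ∈ a \ b ∧ N ≤ j := by
    intro N
    obtain ⟨j, hj, hj'⟩ := hinf.exists_gt N
    exact ⟨j, hj, hj'.le⟩
  choose c hc hcN using hex
  let n : ℕ → ℕ := fun k => Nat.rec (c 0) (fun _ prev => c (l (prev + 1))) k
  have hn0 : n 0 = c 0 := rfl
  have hn1 : ∀ k, n (k + 1) = c (l (n k + 1)) := fun k => rfl
  have hnl : ∀ k, l (n k + 1) ≤ n (k + 1) := fun k => by rw [hn1]; exact hcN _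
  have hnab : ∀ k, n k ∈ a \ b := by
    intro k
    cases k with
    | zero => exact hc _
    | succ k => rw [hn1]; exact hc _
  have hnlt : ∀ k, n k < n (k + 1) := fun k => by
    have h1 := hl (n k + 1)
    have h2 := hnl k
    omega
  have hnk : ∀ k, k ≤ n k := by
    intro k
    induction k with
    | zero => omega
    | succ k ih => have := hnlt k; omega
  obtain ⟨hw1, hw2⟩ := hW b ψ D' z l M hfus' n hnl
  -- windows
  have hwin : ∀ k0 m, M (n k0 + 1) ≤ m → ∃ k, k0 ≤ k ∧ M (n k + 1) ≤ m ∧ m < M (n (k + 1) + 1) := by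
    intro k0 m hm
    have hexj : ∃ j, k0 ≤ j ∧ m < M (n (j + 1) + 1) := by
      refine ⟨max k0 m, le_max_left _ _, ?_⟩
      have h1 := hM (n (max k0 m + 1) + 1)
      have h2 := hnk (max k0 m + 1)
      have h3 := le_max_right k0 m
      omega
    classical
    refine ⟨Nat.find hexj, (Nat.find_spec hexj).1, ?_, (Nat.find_spec hexj).2⟩
    rcases Nat.eq_or_lt_of_le (Nat.find_spec hexj).1 with h | h
    · rw [← h]; exact hm
    · have h1 := Nat.find_min hexj (m := Nat.find hexj - 1) (by omega)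
      push Not at h1
      have h2 := h1 (by omega)
      have h3 : Nat.find hexj - 1 + 1 = Nat.find hexj := by omega
      rw [h3] at h2
      exact h2
  have hiff' : ∀ y ∈ D', ∀ y' ∈ D', Rel a y y' → Rel b (ψ y) (ψ y') := fun y hy y' hy' h =>
    (hiff y (hD' hy) y' (hD' hy')).1 h
  -- Claim B
  have hB : ∀ K : ℕ, ∃ k1 : ℕ, ∀ k, k1 ≤ k → ∀ i j : Fin (L (n (k + 1)) + 1),
      ∀ m, m ∈ b → M (n k + 1) ≤ m → m < M (n (k + 1) + 1) → n (k + 1) < m →
        (1 + ds (ψ (Function.update z (n (k + 1)) i))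
          (ψ (Function.update z (n (k + 1)) j)) m) ^ K ≤ L m := by
    intro K
    obtain ⟨k0, hk0⟩ := hJ a b ψ D' z l M hfus' hiff' n hnl (2 * K)
    refine ⟨max k0 K, ?_⟩
    intro k hk
    have hk0' : k0 ≤ k := (le_max_left _ _).trans hk
    have hKk : K ≤ k := (le_max_right _ _).trans hk
    have hadj := hk0 k hk0'
    set n' := n (k + 1) with hn'
    have hKn' : K ≤ n' := by have := hnk (k + 1); omega
    intro i j m hmb hm1 hm2 hnm
    -- the function
    let f : ℕ → ℕ := fun t =>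
      (ψ (Function.update z n' ⟨min t (L n'), by
        have := min_le_right t (L n'); omega⟩) m : ℕ)
    have hfi : ∀ i : Fin (L n' + 1), f i = (ψ (Function.update z n' i) m : ℕ) := by
      intro i
      have h1 : (⟨min (i : ℕ) (L n'), by have := min_le_right (i : ℕ) (L n'); omega⟩ :
          Fin (L n' + 1)) = i := by
        apply Fin.ext
        show min (i : ℕ) (L n') = i
        exact min_eq_left (Nat.lt_succ_iff.1 i.2)
      show (ψ (Function.update z n' ⟨min (i : ℕ) (L n'), _⟩) m : ℕ) = _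
      rw [h1]
    have hne : (Finset.range (L n')).Nonempty := by
      rw [Finset.nonempty_range_iff]
      have := hL1 n'
      omega
    obtain ⟨t0, ht0, hD0⟩ := Finset.exists_mem_eq_sup' hne (fun t => nd (f t) (f (t + 1)))
    set D0 := (Finset.range (L n')).sup' hne (fun t => nd (f t) (f (t + 1))) with hD0def
    have hstep : ∀ t, t < L n' → nd (f t) (f (t + 1)) ≤ D0 := fun t ht =>
      Finset.le_sup' (fun t => nd (f t) (f (t + 1))) (Finset.mem_range.2 ht)
    have hD0pow : (1 + D0) ^ (2 * K) ≤ L m := by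
      rw [hD0]
      rw [Finset.mem_range] at ht0
      have h1 := hadj ⟨t0, by omega⟩ ⟨t0 + 1, by omega⟩ rfl m hmb hm1 hm2
      have h2 := hfi ⟨t0, by omega⟩
      have h3 := hfi ⟨t0 + 1, by omega⟩
      rw [ds_eq, ← h2, ← h3] at h1
      exact h1
    have hch := chain' f (L n') D0 hstep i j (Nat.lt_succ_iff.1 i.2) (Nat.lt_succ_iff.1 j.2)
    rw [hfi, hfi] at hch
    rw [ds_eq]
    set d := nd (ψ (Function.update z n' i) m : ℕ) (ψ (Function.update z n' j) m : ℕ) with hd
    have h1 : 1 + d ≤ (L n' + 1) * (1 + D0) := by nlinarith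
    have h2 : ((1 + d) ^ K) ^ 2 ≤ (L m) ^ 2 := by
      calc ((1 + d) ^ K) ^ 2 = (1 + d) ^ (2 * K) := by rw [← pow_mul, mul_comm]
        _ ≤ ((L n' + 1) * (1 + D0)) ^ (2 * K) := Nat.pow_le_pow_left h1 _
        _ = (L n' + 1) ^ (2 * K) * (1 + D0) ^ (2 * K) := by rw [mul_pow]
        _ ≤ (L n' + 1) ^ (2 * (m + 1)) * (1 + D0) ^ (2 * K) :=
          Nat.mul_le_mul_right _ (Nat.pow_le_pow_right (by omega) (by omega))
        _ ≤ L m * L m := Nat.mul_le_mul (hLL n' m hnm) hD0pow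
        _ = (L m) ^ 2 := by ring
    exact (Nat.pow_le_pow_iff_left (by norm_num : (2:ℕ) ≠ 0)).1 h2
  -- pigeonhole
  choose ii jj hij1 hij2 using pigeon hArith ψ z
  have hput : ∀ (e : Z) (k : ℕ), put (Set.range n) z e (n k) = e (n k) := by
    intro e k
    have : n k ∈ Set.range n := ⟨k, rfl⟩
    simp [put]
  have hy := hw1 ii
  have hy' := hw1 jj
  have hnot : ¬ Rel a (put (Set.range n) z ii) (put (Set.range n) z jj) := by
    intro h
    obtain ⟨N, hN⟩ := h 2
    have h1 := hN (n N) (hnk N) (hnab N).1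
    rw [ds_eq, hput, hput] at h1
    exact absurd (hij2 (n N)) (by omega)
  apply hnot
  rw [hiff _ (hD' hy) _ (hD' hy')]
  intro K
  obtain ⟨k1, hk1⟩ := hB (4 * K)
  refine ⟨M (n (max k1 (4 * K)) + 1), ?_⟩
  intro m hm hmb
  obtain ⟨k, hk, hm1, hm2⟩ := hwin _ m hm
  have hk1' : k1 ≤ k := (le_max_left _ _).trans hk
  have hKk : 4 * K ≤ k := (le_max_right _ _).trans hk
  have e1 := hw2 ii k m hmb hm1 hm2
  have e3 := hw2 jj k m hmb hm1 hm2
  have hexp : 4 * K ≤ n k + 1 := by have := hnk k; omega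
  set n' := n (k + 1) with hn'
  set u := ψ (Function.update z n' (ii n')) with hu
  set v := ψ (Function.update z n' (jj n')) with hv
  have e2 : (1 + ds u v m) ^ (4 * K) ≤ L m := by
    rcases lt_trichotomy m n' with h | h | h
    · have h1 : u m = v m := hij1 n' m h
      rw [ds_eq, h1]
      have h2 : nd (v m : ℕ) (v m : ℕ) = 0 := by simp [nd]
      rw [h2]
      simpa using hL1 m
    · exfalso
      rw [h] at hmb
      exact (hnab (k + 1)).2 hmb
    · exact hk1 k hk1' _ _ m hmb hm1 hm2 h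
  have e1' : (1 + ds (ψ (put (Set.range n) z ii)) u m) ^ (4 * K) ≤ L m :=
    (Nat.pow_le_pow_right (by omega) hexp).trans e1
  have e3' : (1 + ds (ψ (put (Set.range n) z jj)) v m) ^ (4 * K) ≤ L m :=
    (Nat.pow_le_pow_right (by omega) hexp).trans e3
  have htri : ds (ψ (put (Set.range n) z ii)) (ψ (put (Set.range n) z jj)) m ≤
      ds (ψ (put (Set.range n) z ii)) u m + ds u v m + ds (ψ (put (Set.range n) z jj)) v m := by
    simp only [ds]; omega
  set d := ds (ψ (put (Set.range n) z ii)) (ψ (put (Set.range n) z jj)) m with hd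
  set d1 := ds (ψ (put (Set.range n) z ii)) u m with hd1
  set d2 := ds u v m with hd2
  set d3 := ds (ψ (put (Set.range n) z jj)) v m with hd3
  have h1 : 1 + d ≤ (1 + d1) * (1 + d2) * (1 + d3) := by
    have h2 : (1 + d1) * (1 + d2) * (1 + d3) =
        1 + (d1 + d2 + d3) + (d1 * d2 + d1 * d3 + d2 * d3 + d1 * d2 * d3) := by ring
    rw [h2]; omega
  have h2 : ((1 + d) ^ K) ^ 4 ≤ (L m) ^ 4 := by
    calc ((1 + d) ^ K) ^ 4 = (1 + d) ^ (4 * K) := by rw [← pow_mul, mul_comm]
      _ ≤ ((1 + d1) * (1 + d2) * (1 + d3)) ^ (4 * K) := Nat.pow_le_pow_left h1 _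
      _ = (1 + d1) ^ (4 * K) * (1 + d2) ^ (4 * K) * (1 + d3) ^ (4 * K) := by
        rw [mul_pow, mul_pow]
      _ ≤ L m * L m * L m := Nat.mul_le_mul (Nat.mul_le_mul e1' e2) e3'
      _ ≤ L m * L m * L m * L m := Nat.le_mul_of_pos_right _ (hL1 m)
      _ = (L m) ^ 4 := by ring
  exact (Nat.pow_le_pow_iff_left (by norm_num : (4:ℕ) ≠ 0)).1 h2

end Pool.Agent.Y998.HK
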